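import Pool.Agent.H82.PD.Targets
import Pool.Agent.H19.C1.SCH

/-!
# SHD: decomposition of the local potential into dyadic balls
-/

set_option autoImplicit false

namespace Pool.Agent.H9.PD

open MeasureTheory Set Metric Pool.Agent.H82.KL Pool.Agent.H94.C1 Pool.Agent.H82.PD
open scoped ENNReal NNReal

/-- the number of dyadic scales -/
lemma scales {lam : ℝ} (hl : 1 ≤ lam) : ∃ J : ℕ, (J : ℝ) ≤ 4 * (1 + Real.log lam) ∧
    (∀ j < J, 1 / lam ≤ 8 / 2 ^ j) ∧ (8 : ℝ) / 2 ^ J < 1 / lam := by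
  have hl0 : 0 < lam := by linarith
  have hfl : ⌊8 * lam⌋₊ ≠ 0 := by
    have : 1 ≤ ⌊8 * lam⌋₊ := Nat.le_floor (by push_cast; linarith)
    omega
  have h1 : ((2 : ℕ) ^ Nat.log 2 ⌊8 * lam⌋₊ : ℝ) ≤ 8 * lam := by
    have h2 : 2 ^ Nat.log 2 ⌊8 * lam⌋₊ ≤ ⌊8 * lam⌋₊ := Nat.pow_log_le_self 2 hfl
    have h3 : ((2 ^ Nat.log 2 ⌊8 * lam⌋₊ : ℕ) : ℝ) ≤ (⌊8 * lam⌋₊ : ℝ) := by exact_mod_cast h2
    have h4 : (⌊8 * lam⌋₊ : ℝ) ≤ 8 * lam := Nat.floor_le (by positivity)
    push_cast at h3 ⊢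
    linarith
  push_cast at h1
  refine ⟨Nat.log 2 ⌊8 * lam⌋₊ + 1, ?_, ?_, ?_⟩
  · have h5 : (Nat.log 2 ⌊8 * lam⌋₊ : ℝ) * Real.log 2 ≤ 3 * Real.log 2 + Real.log lam := by
      have h6 := Real.log_le_log (by positivity) h1
      rw [Real.log_pow, Real.log_mul (by norm_num) hl0.ne'] at h6
      have h7 : Real.log 8 = 3 * Real.log 2 := by
        rw [show (8 : ℝ) = 2 ^ 3 by norm_num, Real.log_pow]
        norm_num
      rw [h7] at h6
      exact h6
    have h8 : (1 : ℝ) / 2 < Real.log 2 := by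
      have := Real.log_two_gt_d9
      linarith
    have h9 : 0 ≤ Real.log lam := Real.log_nonneg hl
    push_cast
    by_contra hcon
    push Not at hcon
    have h10 : 3 + 4 * Real.log lam < (Nat.log 2 ⌊8 * lam⌋₊ : ℝ) := by linarith
    nlinarith
  · intro j hj
    have h2 : (2 : ℝ) ^ j ≤ 2 ^ Nat.log 2 ⌊8 * lam⌋₊ :=
      pow_le_pow_right₀ (by norm_num) (by omega)
    rw [div_le_div_iff₀ hl0 (by positivity)]
    linarith
  · have h2 : ⌊8 * lam⌋₊ < 2 ^ (Nat.log 2 ⌊8 * lam⌋₊ + 1) := Nat.lt_pow_succ_log_self (by norm_num) _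
    have h3 : 8 * lam < (2 : ℝ) ^ (Nat.log 2 ⌊8 * lam⌋₊ + 1) := by
      have := (Nat.floor_lt (by positivity)).1 h2
      exact_mod_cast this
    rw [div_lt_div_iff₀ (by positivity) hl0]
    linarith

/-- the scale of a point -/
lemma scale_of {J : ℕ} {δ r : ℝ} (hr8 : r ≤ 8) (hδr : δ < r) (hJ : (8 : ℝ) / 2 ^ J < δ) :
    ∃ j < J, r ≤ 8 / 2 ^ j ∧ 8 / 2 ^ (j + 1) < r := by
  classical
  have hex : ∃ i : ℕ, (8 : ℝ) / 2 ^ i < r := ⟨J, hJ.trans hδr⟩
  obtain ⟨i, hi, hi'⟩ : ∃ i : ℕ, (8 : ℝ) / 2 ^ i < r ∧ ∀ k < i, ¬ (8 : ℝ) / 2 ^ k < r :=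
    ⟨Nat.find hex, Nat.find_spec hex, fun k hk => Nat.find_min hex hk⟩
  have hi0 : i ≠ 0 := by
    rintro rfl
    rw [pow_zero, div_one] at hi
    linarith
  have hiJ : i ≤ J := by
    by_contra h
    exact hi' J (by omega) (hJ.trans hδr)
  refine ⟨i - 1, by omega, not_lt.1 (hi' (i - 1) (by omega)), ?_⟩
  rw [Nat.sub_add_cancel (Nat.one_le_iff_ne_zero.2 hi0)]
  exact hi

lemma inv_bd {d : ℕ} {x y : EE d} {j : ℕ} (h : (8 : ℝ) / 2 ^ (j + 1) < ‖x - y‖) :
    (‖x - y‖ₑ ^ 2)⁻¹ ≤ 4 * ENNReal.ofReal (((8 / 2 ^ j : ℝ) ^ 2)⁻¹) := by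
  have h0 : 0 < ‖x - y‖ := lt_trans (by positivity) h
  have e1 : (‖x - y‖ₑ ^ 2)⁻¹ = ENNReal.ofReal ((‖x - y‖ ^ 2)⁻¹) := by
    rw [ENNReal.ofReal_inv_of_pos (by positivity), ENNReal.ofReal_pow (norm_nonneg _), ofReal_norm]
  have e2 : (4 : ℝ≥0∞) = ENNReal.ofReal 4 := by norm_num
  rw [e1, e2, ← ENNReal.ofReal_mul (by norm_num)]
  apply ENNReal.ofReal_le_ofReal
  have h1 : ((8 : ℝ) / 2 ^ (j + 1)) ^ 2 ≤ ‖x - y‖ ^ 2 := by
    apply pow_le_pow_left₀ (by positivity) h.le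
  calc (‖x - y‖ ^ 2)⁻¹ ≤ (((8 : ℝ) / 2 ^ (j + 1)) ^ 2)⁻¹ := inv_anti₀ (by positivity) h1
    _ = _ := by
      have h2 : (2 : ℝ) ^ (j + 1) = 2 * 2 ^ j := by rw [pow_succ]; ring
      rw [h2]
      field_simp
      norm_num

/-- SHD -/
theorem pf_SHD : T_SHD := by
  intro d C₀ hd
  have hdr : (3 : ℝ) ≤ d := by exact_mod_cast hd
  have hne0 : Nonempty (Fin d) := ⟨⟨0, by omega⟩⟩
  have hnt : Nontrivial (EE d) := inferInstance
  set A : ℝ := (volume (closedBall (0 : EE d) 1)).toReal with hA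
  have hA0 : 0 ≤ A := ENNReal.toReal_nonneg
  obtain ⟨C1, hC1⟩ := Pool.Agent.H19.C1.pf_SCH d 0 ((d : ℝ) - 2) A hd hA0 le_rfl (by linarith)
  refine ⟨4 + C₀ * C1, fun lam hl => ?_⟩
  have hl0 : 0 < lam := by linarith
  obtain ⟨J, hJ1, hJ2, hJ3⟩ := scales hl
  refine ⟨J, ?_, hJ2, ?_⟩
  · refine hJ1.trans (mul_le_mul_of_nonneg_right ?_ ?_)
    · push_cast
      have : (0 : ℝ) ≤ C₀ * C1 := by positivity
      linarith
    · have := Real.log_nonneg hl
      linarith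
  intro G hG hGc x
  -- the small ball
  set δ : ℝ := 1 / lam with hδ
  have hδ0 : 0 < δ := by positivity
  have hδ1 : δ ≤ 1 := by
    rw [hδ, div_le_one hl0]
    exact hl
  have hvol : volume (closedBall x δ) ≤ ENNReal.ofReal (A * δ ^ ((d : ℝ) - 0)) := by
    have hfin : volume (closedBall (0 : EE d) 1) ≠ ⊤ := measure_closedBall_lt_top.ne
    rw [Measure.addHaar_closedBall' _ _ hδ0.le, ← ENNReal.ofReal_toReal hfin, ← hA,
      ← ENNReal.ofReal_mul (by positivity), finrank_euclideanSpace, Fintype.card_fin]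
    apply ENNReal.ofReal_le_ofReal
    rw [sub_zero, Real.rpow_natCast, mul_comm]
  have hsm : ∫⁻ y in closedBall x δ, (‖x - y‖ₑ ^ 2)⁻¹ ≤
      C1 * ENNReal.ofReal (lam ^ (-((d : ℝ) - 2))) := by
    have h1 := hC1 δ (closedBall x δ) x hδ0 hδ1 hvol (fun r hr hr1 => by
      refine (measure_mono inter_subset_left).trans (hvol.trans ?_)
      rw [Real.rpow_zero, mul_one])
    refine h1.trans (le_of_eq ?_)
    congr 2
    rw [hδ, one_div, Real.inv_rpow hl0.le, Real.rpow_neg hl0.le]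
  -- pointwise
  have hpt : ∀ y, (closedBall x 8).indicator (fun y => G y * (‖x - y‖ₑ ^ 2)⁻¹) y ≤
      (closedBall x δ).indicator (fun y => C₀ * G x * (‖x - y‖ₑ ^ 2)⁻¹) y +
      ∑ j ∈ Finset.range J, (closedBall x (8 / 2 ^ j)).indicator
        (fun y => 4 * ENNReal.ofReal (((8 / 2 ^ j : ℝ) ^ 2)⁻¹) * G y) y := by
    intro y
    by_cases hy : y ∈ closedBall x 8
    · rw [indicator_of_mem hy]
      by_cases hy' : y ∈ closedBall x δ
      · rw [indicator_of_mem hy']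
        refine le_add_right (mul_le_mul_left ?_ _)
        apply hGc
        rw [mem_closedBall, dist_eq_norm, norm_sub_rev] at hy'
        exact hy'
      · rw [indicator_of_notMem hy', zero_add]
        rw [mem_closedBall, dist_eq_norm, norm_sub_rev] at hy hy'
        obtain ⟨j, hj, h1, h2⟩ := scale_of hy (not_le.1 hy') hJ3
        refine le_trans ?_ (Finset.single_le_sum (f := fun j =>
          (closedBall x (8 / 2 ^ j)).indicator
            (fun y => 4 * ENNReal.ofReal (((8 / 2 ^ j : ℝ) ^ 2)⁻¹) * G y) y)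
          (fun _ _ => zero_le) (Finset.mem_range.2 hj))
        have hm : y ∈ closedBall x (8 / 2 ^ j : ℝ) := by
          rw [mem_closedBall, dist_eq_norm, norm_sub_rev]
          exact h1
        simp only [indicator_of_mem hm]
        rw [mul_comm]
        exact mul_le_mul_left (inv_bd h2) _
    · rw [indicator_of_notMem hy]
      exact zero_le
  have hmk : Measurable fun y : EE d => (‖x - y‖ₑ ^ 2)⁻¹ := by fun_prop
  calc k2B G x = ∫⁻ y, (closedBall x 8).indicator (fun y => G y * (‖x - y‖ₑ ^ 2)⁻¹) y := by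
        rw [lintegral_indicator measurableSet_closedBall]
        rfl
    _ ≤ ∫⁻ y, ((closedBall x δ).indicator (fun y => C₀ * G x * (‖x - y‖ₑ ^ 2)⁻¹) y +
      ∑ j ∈ Finset.range J, (closedBall x (8 / 2 ^ j)).indicator
        (fun y => 4 * ENNReal.ofReal (((8 / 2 ^ j : ℝ) ^ 2)⁻¹) * G y) y) := lintegral_mono hpt
    _ = C₀ * G x * (∫⁻ y in closedBall x δ, (‖x - y‖ₑ ^ 2)⁻¹) +
      ∑ j ∈ Finset.range J, 4 * ENNReal.ofReal (((8 / 2 ^ j : ℝ) ^ 2)⁻¹) *
        ba (8 / 2 ^ j) G x := by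
        rw [lintegral_add_left ((hmk.const_mul _).indicator measurableSet_closedBall),
          lintegral_indicator measurableSet_closedBall, lintegral_const_mul _ hmk,
          lintegral_finsetSum _ fun j _ =>
            (hG.const_mul _).indicator measurableSet_closedBall]
        congr 1
        refine Finset.sum_congr rfl fun j _ => ?_
        rw [lintegral_indicator measurableSet_closedBall, lintegral_const_mul _ hG]
        rfl
    _ ≤ C₀ * G x * (C1 * ENNReal.ofReal (lam ^ (-((d : ℝ) - 2)))) +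
      4 * ∑ j ∈ Finset.range J, ENNReal.ofReal (((8 / 2 ^ j : ℝ) ^ 2)⁻¹) *
        ba (8 / 2 ^ j) G x := by
        refine add_le_add (mul_le_mul_right hsm _) (le_of_eq ?_)
        rw [Finset.mul_sum]
        exact Finset.sum_congr rfl fun j _ => by ring
    _ ≤ _ := by
        rw [mul_add]
        refine add_le_add ?_ ?_
        · calc C₀ * G x * (C1 * ENNReal.ofReal (lam ^ (-((d : ℝ) - 2))))
              = (C₀ * C1 : ℝ≥0) * (ENNReal.ofReal (lam ^ (-((d : ℝ) - 2))) * G x) := by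
                push_cast
                ring
            _ ≤ _ := by
                refine mul_le_mul_left ?_ _
                exact_mod_cast le_add_left le_rfl
        · refine mul_le_mul_left ?_ _
          simp

end Pool.Agent.H9.PD
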